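import Pool.Agent.Run7.h380.TP.Sys

set_option autoImplicit false

/-!
# The largest index rule on alternating systems: the combinatorial core

`GaleP π C`: the number of elements of `C` after any `l ∉ C` has the parity of `π`.
-/

namespace Run7.h380.DS

open Finset Run7.h380.TP

variable {k r : ℕ}

/-- after every element which is not in `C` there is a number of elements of `C` congruent to `π`
modulo two -/
def GaleP (π : ℕ) (C : Finset (Fin r)) : Prop := ∀ l ∉ C, Even (above C l + π)

theorem galeP_zero {C : Finset (Fin r)} : GaleP 0 C ↔ Gale C := by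
  unfold GaleP Gale
  simp

variable {s : AltSys k r}

theorem dir_exists {π : ℕ} {C : Finset (Fin r)} (hC : C.card = k) (hG : GaleP π C) {l : Fin r}
    (hl : l ∉ C) : ∃ w, s.Dir C l w ∧ (∀ i ∈ C, l < i → 0 < (-1) ^ (above C i + π) * w i) ∧
      (∀ i ∈ C, i < l → 0 < (-1) ^ (above C i + π + 1) * w i) := by
  have hT : (insert l C).card = k + 1 := by rw [card_insert_of_notMem hl, hC]
  obtain ⟨w', hwV', h1', h2'⟩ := s.circ (insert l C) hT
  -- multiply by the sign
  obtain ⟨w, hw⟩ : ∃ w : Fin r → ℝ, w = ((-1 : ℝ) ^ π) • w' := ⟨_, rfl⟩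
  have hwV : w ∈ s.V := hw ▸ s.V.smul_mem _ hwV'
  have hwt : ∀ t, w t = (-1) ^ π * w' t := fun t => by rw [hw]; rfl
  have h1 : ∀ t ∉ insert l C, w t = 0 := fun t ht => by rw [hwt, h1' t ht, mul_zero]
  have h2 : ∀ t ∈ insert l C, 0 < (-1) ^ (above (insert l C) t + π) * w t := by
    intro t ht
    have h3 := h2' t ht
    have h4 : (-1 : ℝ) ^ (above (insert l C) t + π) * w t =
        (-1) ^ above (insert l C) t * w' t * ((-1) ^ π * (-1) ^ π) := by
      rw [hwt, pow_add]
      ring
    have h5 : ((-1 : ℝ) ^ π * (-1) ^ π) = 1 := by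
      rw [← pow_add, ← two_mul, pow_mul]
      simp
    rw [h4, h5, mul_one]
    exact h3
  have hwl : 0 < w l := by
    have := h2 l (mem_insert_self _ _)
    rw [above_insert_self, (hG l hl).neg_one_pow, one_mul] at this
    exact this
  refine ⟨fun t => w t / w l, ⟨?_, div_self hwl.ne', ?_⟩, ?_, ?_⟩
  · have : (fun t => w t / w l) = (w l)⁻¹ • w := by
      ext t
      simp only [Pi.smul_apply, smul_eq_mul]
      field_simp
    rw [this]
    exact s.V.smul_mem _ hwV
  · intro i hi hil
    have : w i = 0 := h1 i (by simp [hi, hil])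
    simp [this]
  · intro i hi hli
    have := h2 i (mem_insert_of_mem hi)
    rw [above_insert_of_gt hli] at this
    have h5 : (-1 : ℝ) ^ (above C i + π) * (w i / w l) = ((-1) ^ (above C i + π) * w i) / w l := by
      ring
    rw [h5]
    exact div_pos this hwl
  · intro i hi hli
    have := h2 i (mem_insert_of_mem hi)
    rw [above_insert_of_lt hl hli] at this
    have h5 : (-1 : ℝ) ^ (above C i + π + 1) * (w i / w l) =
        ((-1) ^ (above C i + 1 + π) * w i) / w l := by
      rw [show above C i + π + 1 = above C i + 1 + π by ring]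
      ring
    rw [h5]
    exact div_pos this hwl

/-- signs of directions -/
theorem dir_sign {π : ℕ} {C : Finset (Fin r)} (hC : C.card = k) (hG : GaleP π C) {l : Fin r}
    (hl : l ∉ C) {w : Fin r → ℝ} (hw : s.Dir C l w) {i : Fin r} (hi : i ∈ C) :
    (l < i → 0 < (-1) ^ (above C i + π) * w i) ∧
      (i < l → 0 < (-1) ^ (above C i + π + 1) * w i) := by
  obtain ⟨w', h1, h2, h3⟩ := dir_exists (s := s) hC hG hl
  have : w = w' := AltSys.dir_unique hC hw h1
  subst this
  exact ⟨h2 i hi, h3 i hi⟩

/-- every solution is the basic one plus a combination of directions -/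
theorem expand {C : Finset (Fin r)} (hC : C.card = k) {u z : Fin r → ℝ} (hu : s.Bas C u)
    (hz : z ∈ s.S) (W : Fin r → Fin r → ℝ) (hW : ∀ l ∉ C, s.Dir C l (W l)) (i : Fin r) :
    z i = u i + ∑ l ∈ Cᶜ, z l * W l i := by
  have h1 : z - u - ∑ l ∈ Cᶜ, z l • W l = 0 := by
    apply s.indep C hC
    · refine s.V.sub_mem (s.sub_mem z hz u hu.1) (s.V.sum_mem fun l hl => ?_)
      exact s.V.smul_mem _ (hW l (mem_compl.1 hl)).1
    · intro i hi
      simp only [Pi.sub_apply, hu.2 i hi, sub_zero, Finset.sum_apply, Pi.smul_apply, smul_eq_mul]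
      rw [sum_eq_single i]
      · rw [(hW i hi).2.1, mul_one, sub_self]
      · intro l hl hli
        rw [(hW l (mem_compl.1 hl)).2.2 i hi (Ne.symm hli), mul_zero]
      · intro h
        exact absurd (mem_compl.2 hi) h
  have := congrFun h1 i
  simp only [Pi.sub_apply, Finset.sum_apply, Pi.smul_apply, smul_eq_mul, Pi.zero_apply] at this
  linarith

/-- certificate of infeasibility -/
theorem infeas {C : Finset (Fin r)} (hC : C.card = k) {u : Fin r → ℝ} (hu : s.Bas C u)
    {i : Fin r} (hneg : u i < 0) (W : Fin r → Fin r → ℝ) (hW : ∀ l ∉ C, s.Dir C l (W l))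
    (hle : ∀ l ∉ C, W l i ≤ 0) : ¬ s.Feasible := by
  rintro ⟨z, hz, hz0⟩
  have h1 := expand hC hu hz W hW i
  have h2 : ∑ l ∈ Cᶜ, z l * W l i ≤ 0 :=
    sum_nonpos fun l hl => mul_nonpos_of_nonneg_of_nonpos (hz0 l) (hle l (mem_compl.1 hl))
  have := hz0 i
  linarith

/-- The stack of witnesses, up to the index `m`, with the base index `B`. -/
inductive Lvl (s : AltSys k r) (C : Finset (Fin r)) (B : ℕ) : ℕ → Prop
  | base (m : ℕ) (h : ∀ e ∈ C, e.val < m → e.val < B) : Lvl s C B m
  | step (m : ℕ) (j : Fin r) (hBj : B ≤ j.val) (hjm : j.val < m) (hj : j ∉ C) (v : Fin r → ℝ)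
      (hv : v ∈ s.S) (hvj : v j ≤ 0) (hpos : ∀ e, j < e → 0 ≤ v e)
      (hsupp : ∀ e : Fin r, e.val < m → e ∉ C → e ≠ j → v e = 0) (h : Lvl s C B j.val) :
      Lvl s C B m

theorem Lvl.congr {C C' : Finset (Fin r)} {B m : ℕ} (h : Lvl s C B m)
    (hCC : ∀ e : Fin r, e.val < m → (e ∈ C ↔ e ∈ C')) : Lvl s C' B m := by
  induction h with
  | base m h => exact Lvl.base m fun e he hem => h e ((hCC e hem).2 he) hem
  | step m j hBj hjm hj v hv hvj hpos hsupp h ih =>
    refine Lvl.step m j hBj hjm (fun h' => hj ((hCC j hjm).2 h')) v hv hvj hpos ?_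
      (ih fun e he => hCC e (by omega))
    intro e hem heC hej
    exact hsupp e hem (fun h' => heC ((hCC e hem).1 h')) hej

theorem Lvl.restrict {C : Finset (Fin r)} {B m : ℕ} (h : Lvl s C B m) {i : Fin r} (hi : i ∈ C)
    (him : i.val ≤ m) : Lvl s C B i.val := by
  induction h with
  | base m h => exact Lvl.base _ fun e he hei => h e he (by omega)
  | step m j hBj hjm hj v hv hvj hpos hsupp h ih =>
    have hne : i.val ≠ j.val := fun h' => hj (Fin.ext h' ▸ hi)
    rcases Nat.lt_or_ge j.val i.val with h' | h'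
    · exact Lvl.step _ j hBj h' hj v hv hvj hpos (fun e he => hsupp e (by omega)) h
    · exact ih (by omega)

/-- the key lemma -/
theorem Lvl.key {π : ℕ} {C : Finset (Fin r)} {B m : ℕ} (h : Lvl s C B m) (hC : C.card = k)
    (hG : GaleP π C) {u : Fin r → ℝ} (hu : s.Bas C u) {i : Fin r} (hi : i ∈ C) (him : i.val < m)
    (hBi : B ≤ i.val) (heven : Even (above C i + π)) : 0 ≤ u i := by
  induction h with
  | base m h =>
    have := h i hi him
    omega
  | step m j hBj hjm hj v hv hvj hpos hsupp h ih =>
    have hne : i.val ≠ j.val := fun h' => hj (Fin.ext h' ▸ hi)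
    rcases Nat.lt_or_ge j.val i.val with h' | h'
    · have hji : j < i := h'
      choose! W hW using fun l (hl : l ∉ C) => dir_exists (s := s) hC hG hl
      have h1 := expand hC hu hv W (fun l hl => (hW l hl).1) i
      have h2 : ∑ l ∈ Cᶜ, v l * W l i ≤ 0 := by
        apply sum_nonpos
        intro l hl
        have hl' := mem_compl.1 hl
        by_cases hlj : l = j
        · have h4 := (hW l hl').2.1 i hi (hlj ▸ hji)
          rw [heven.neg_one_pow, one_mul] at h4
          apply mul_nonpos_of_nonpos_of_nonneg _ h4.le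
          rw [hlj]
          exact hvj
        · rcases Nat.lt_or_ge l.val m with h5 | h5
          · rw [hsupp l h5 hl' hlj, zero_mul]
          · have h6 : i < l := Fin.lt_def.2 (by omega)
            have h4 := (hW l hl').2.2 i hi h6
            rw [heven.add_one.neg_one_pow] at h4
            apply mul_nonpos_of_nonneg_of_nonpos (hpos l (hji.trans h6))
            linarith
      have := hpos i hji
      linarith
    · exact ih (by omega)

end Run7.h380.DS
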