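import Pool.Agent.Run7.h380.TP.Algo

set_option autoImplicit false

/-!
# The dual simplex method with the least or the largest index rule

The linear program `min c x`, `A x = b`, `x ≥ 0`, where `A` is a `k × n` matrix.
-/

namespace Run7.h380.DS

open Finset Run7.h380.TP

variable {k n : ℕ}

/-- `C` is a dual feasible basis: `k` linearly independent columns, and no reduced cost is
negative. -/
def DualFeasible (A : Matrix (Fin k) (Fin n) ℝ) (c : Fin n → ℝ) (C : Finset (Fin n)) : Prop :=
  C.card = k ∧ (∀ w : Fin n → ℝ, A.mulVec w = 0 → (∀ i ∉ C, w i = 0) → w = 0) ∧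
    ∀ l ∉ C, ∀ w, Direction A C l w → 0 ≤ ∑ t, c t * w t

/-- `i` leaves the basis `C` with the basic solution `u`: `u i < 0`, and `i` is the least
(`least = true`), respectively the largest (`least = false`), index with this property. -/
def Leaves (least : Bool) (C : Finset (Fin n)) (u : Fin n → ℝ) (i : Fin n) : Prop :=
  i ∈ C ∧ u i < 0 ∧ ∀ e ∈ C, (if least then e < i else i < e) → 0 ≤ u e

/-- `q` enters the basis `C` when `i` leaves it: the dual ratio test. -/
def Enters (A : Matrix (Fin k) (Fin n) ℝ) (c : Fin n → ℝ) (C : Finset (Fin n)) (i q : Fin n) :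
    Prop :=
  q ∉ C ∧ ∃ w, Direction A C q w ∧ 0 < w i ∧ ∀ l ∉ C, ∀ w', Direction A C l w' → 0 < w' i →
    (∑ t, c t * w t) / w i ≤ (∑ t, c t * w' t) / w' i

/-- Runs of the dual simplex method from the basis `C`, with `N` pivots and the outcome `o`: the
final basis, or `none` if the method stops because no column can enter. -/
inductive Run (A : Matrix (Fin k) (Fin n) ℝ) (b : Fin k → ℝ) (c : Fin n → ℝ) (least : Bool) :
    Finset (Fin n) → ℕ → Option (Finset (Fin n)) → Prop
  | opt (C : Finset (Fin n)) (u : Fin n → ℝ) (hu : Basic A b C u) (h0 : ∀ t, 0 ≤ u t) :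
      Run A b c least C 0 (some C)
  | stop (C : Finset (Fin n)) (u : Fin n → ℝ) (i : Fin n) (hu : Basic A b C u)
      (hi : Leaves least C u i) (h : ∀ l ∉ C, ∀ w, Direction A C l w → w i ≤ 0) :
      Run A b c least C 0 none
  | pivot (C : Finset (Fin n)) (u : Fin n → ℝ) (i q : Fin n) (N : ℕ)
      (o : Option (Finset (Fin n))) (hu : Basic A b C u) (hi : Leaves least C u i)
      (hq : Enters A c C i q) (hr : Run A b c least (insert q (C.erase i)) N o) :
      Run A b c least C (N + 1) o

/-- What the outcome means. -/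
def Solved (A : Matrix (Fin k) (Fin n) ℝ) (b : Fin k → ℝ) (c : Fin n → ℝ) :
    Option (Finset (Fin n)) → Prop
  | none => ¬ ∃ z : Fin n → ℝ, (∀ t, 0 ≤ z t) ∧ A.mulVec z = b
  | some C => ∃ u : Fin n → ℝ, Basic A b C u ∧ (∀ t, 0 ≤ u t) ∧
      ∀ z : Fin n → ℝ, (∀ t, 0 ≤ z t) → A.mulVec z = b → ∑ t, c t * u t ≤ ∑ t, c t * z t

end Run7.h380.DS
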