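import Pool.Agent.Run7.h380.DS.Step

set_option autoImplicit false

/-!
# Reversing the order of the indices
-/

namespace Run7.h380.DS

open Finset Run7.h380.TP

variable {k r : ℕ}

/-- the set in the reversed order -/
def rv (C : Finset (Fin r)) : Finset (Fin r) := C.map Fin.revPerm.toEmbedding

theorem mem_rv {C : Finset (Fin r)} {e : Fin r} : e ∈ rv C ↔ e.rev ∈ C := by
  unfold rv
  rw [mem_map]
  constructor
  · rintro ⟨a, ha, rfl⟩
    simpa using ha
  · intro h
    exact ⟨e.rev, h, by simp⟩

theorem card_rv (C : Finset (Fin r)) : (rv C).card = C.card := card_map _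

theorem rv_swap (C : Finset (Fin r)) (i q : Fin r) :
    rv (insert q (C.erase i)) = insert q.rev ((rv C).erase i.rev) := by
  ext e
  rw [mem_rv, mem_insert, mem_insert, mem_erase, mem_erase, mem_rv]
  have h1 : e.rev = q ↔ e = q.rev := by
    constructor
    · intro h; rw [← h, Fin.rev_rev]
    · intro h; rw [h, Fin.rev_rev]
  have h2 : e.rev = i ↔ e = i.rev := by
    constructor
    · intro h; rw [← h, Fin.rev_rev]
    · intro h; rw [h, Fin.rev_rev]
  simp only [h1, h2, ne_eq]

theorem above_rv (C : Finset (Fin r)) (l : Fin r) :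
    above (rv C) l.rev = (C.filter fun e => e < l).card := by
  unfold above
  have h1 : (rv C).filter (fun e => l.rev < e) = rv (C.filter fun e => e < l) := by
    ext e
    rw [mem_filter, mem_rv, mem_rv, mem_filter]
    have : l.rev < e ↔ e.rev < l := by
      rw [Fin.rev_lt_iff]
    rw [this]
  rw [h1, card_rv]

theorem above_rv_notMem {C : Finset (Fin r)} {l : Fin r} (hl : l ∉ C) :
    above (rv C) l.rev + above C l = C.card := by
  rw [above_rv]
  unfold above
  have h1 := Finset.card_filter_add_card_filter_not (s := C) (fun e => e < l)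
  rw [← h1]
  congr 2
  ext e
  simp only [mem_filter, not_lt]
  constructor
  · rintro ⟨a, b⟩
    exact ⟨a, b.le⟩
  · rintro ⟨a, b⟩
    exact ⟨a, lt_of_le_of_ne b fun h => hl (h ▸ a)⟩

theorem above_rv_mem {C : Finset (Fin r)} {l : Fin r} (hl : l ∈ C) :
    above (rv C) l.rev + above C l + 1 = C.card := by
  rw [above_rv]
  unfold above
  have h1 := Finset.card_filter_add_card_filter_not (s := C) (fun e => e < l)
  rw [← h1]
  have h2 : C.filter (fun e => ¬ e < l) = insert l (C.filter fun e => l < e) := by
    ext e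
    simp only [mem_filter, not_lt, mem_insert]
    constructor
    · rintro ⟨a, b⟩
      rcases eq_or_lt_of_le b with h | h
      · exact Or.inl h.symm
      · exact Or.inr ⟨a, h⟩
    · rintro (h | ⟨a, b⟩)
      · exact ⟨h ▸ hl, h.ge⟩
      · exact ⟨a, b.le⟩
  rw [h2, card_insert_of_notMem (by simp)]
  omega

/-- the reversed system -/
def revSys (s : AltSys k r) : AltSys k r where
  V := s.V.comap (LinearMap.funLeft ℝ ℝ (Fin.rev : Fin r → Fin r))
  S := {x | (fun i => x i.rev) ∈ s.S}
  add_mem := by
    intro u hu w hw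
    exact s.add_mem _ hu _ hw
  sub_mem := by
    intro u hu u' hu'
    exact s.sub_mem _ hu _ hu'
  indep := by
    intro I hI w hw h0
    have h1 := s.indep (rv I) (by rw [card_rv, hI]) (fun i => w i.rev) hw (by
      intro i hi
      exact h0 _ fun h => hi (mem_rv.2 h))
    ext i
    have := congrFun h1 i.rev
    simpa using this
  basic := by
    intro I hI
    obtain ⟨u, hu, h0⟩ := s.basic (rv I) (by rw [card_rv, hI])
    refine ⟨fun i => u i.rev, ?_, ?_⟩
    · show (fun i : Fin r => u i.rev.rev) ∈ s.S
      simpa using hu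
    · intro i hi
      apply h0
      rw [mem_rv, Fin.rev_rev]
      exact hi
  circ := by
    intro T hT
    obtain ⟨w, hw, h0, h1⟩ := s.circ (rv T) (by rw [card_rv, hT])
    refine ⟨(-1 : ℝ) ^ k • fun i => w i.rev, ?_, ?_, ?_⟩
    · show LinearMap.funLeft ℝ ℝ (Fin.rev : Fin r → Fin r) ((-1 : ℝ) ^ k • fun i => w i.rev) ∈ s.V
      have : LinearMap.funLeft ℝ ℝ (Fin.rev : Fin r → Fin r) ((-1 : ℝ) ^ k • fun i => w i.rev) =
          (-1 : ℝ) ^ k • w := by
        ext i
        simp [LinearMap.funLeft]
      rw [this]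
      exact s.V.smul_mem _ hw
    · intro t ht
      have : w t.rev = 0 := h0 _ (by rw [mem_rv, Fin.rev_rev]; exact ht)
      simp [this]
    · intro t ht
      have h2 := h1 t.rev (by rw [mem_rv, Fin.rev_rev]; exact ht)
      have h3 := above_rv_mem ht
      rw [hT] at h3
      have h4 : k = above (rv T) t.rev + above T t := by omega
      show 0 < (-1 : ℝ) ^ above T t * ((-1 : ℝ) ^ k * w t.rev)
      have h5 : (-1 : ℝ) ^ above T t * ((-1 : ℝ) ^ k * w t.rev) =
          ((-1) ^ above (rv T) t.rev * w t.rev) * ((-1) ^ above T t * (-1) ^ above T t) := by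
        conv_lhs => rw [h4, pow_add]
        ring
      rw [h5, ← pow_add, ← two_mul, pow_mul]
      simpa using h2

theorem bas_rev {s : AltSys k r} {C : Finset (Fin r)} {u : Fin r → ℝ} (hu : s.Bas C u) :
    (revSys s).Bas (rv C) (fun i => u i.rev) := by
  refine ⟨?_, ?_⟩
  · show (fun i : Fin r => u i.rev.rev) ∈ s.S
    simpa using hu.1
  · intro i hi
    exact hu.2 _ fun h => hi (mem_rv.2 h)

theorem galeP_rv {π : ℕ} {C : Finset (Fin r)} (hC : C.card = k) (hG : GaleP π C) :
    GaleP (π + k) (rv C) := by
  intro l hl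
  have hl' : l.rev ∉ C := fun h => hl (mem_rv.2 h)
  have h1 := above_rv_notMem hl'
  rw [Fin.rev_rev, hC] at h1
  have h2 := hG _ hl'
  rw [Nat.even_iff] at h2 ⊢
  omega

/-- The invariant for the largest (`least = false`) and the least (`least = true`) index rule. -/
def InvL (s : AltSys k r) (π : ℕ) (least : Bool) (C : Finset (Fin r)) (B : ℕ) : Prop :=
  C.card = k ∧ GaleP π C ∧
    if least then Inv (revSys s) (π + k) (rv C) B else Inv s π C B

/-- the potential -/
def potL (least : Bool) (C : Finset (Fin r)) : ℕ := if least then pot (rv C) else pot C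

theorem stepL {s : AltSys k r} {π : ℕ} {least : Bool} {C : Finset (Fin r)} {B : ℕ}
    (hinv : InvL s π least C B) {u : Fin r → ℝ} (hu : s.Bas C u) {i : Fin r} (hi : i ∈ C)
    (hneg : u i < 0) (hmax : ∀ e ∈ C, (if least then e < i else i < e) → 0 ≤ u e) {q : Fin r}
    (hq : q ∉ C) (hG' : GaleP π (insert q (C.erase i))) :
    ∃ B', InvL s π least (insert q (C.erase i)) B' ∧
      potL least C + (k + 2) * B' + 2 ≤ potL least (insert q (C.erase i)) + (k + 2) * B := by
  obtain ⟨hC, hG, h⟩ := hinv
  have hcard : (insert q (C.erase i)).card = k := by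
    rw [card_insert_of_notMem fun h => hq (mem_of_mem_erase h), card_erase_of_mem hi, hC]
    have : 0 < C.card := card_pos.2 ⟨i, hi⟩
    omega
  cases least with
  | false =>
    obtain ⟨B', h1, h2, -⟩ := step h hu hi hneg hmax hq hG'
    exact ⟨B', ⟨hcard, hG', h1⟩, h2⟩
  | true =>
    have h3 := galeP_rv hcard hG'
    rw [rv_swap] at h3
    obtain ⟨B', h1, h2, -⟩ := step (s := revSys s) (π := π + k) (i := i.rev) (q := q.rev) h
      (bas_rev hu) (mem_rv.2 (by rwa [Fin.rev_rev])) (by simpa using hneg) (by
        intro e he hie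
        have := hmax e.rev (mem_rv.1 he) (by
          have : e.rev < i := by
            rw [Fin.rev_lt_iff]
            exact hie
          simpa using this)
        exact this) (fun h => hq (by have := mem_rv.1 h; rwa [Fin.rev_rev] at this)) h3
    refine ⟨B', ⟨hcard, hG', ?_⟩, ?_⟩
    · show Inv (revSys s) (π + k) (rv (insert q (C.erase i))) B'
      rw [rv_swap]
      exact h1
    · show pot (rv C) + (k + 2) * B' + 2 ≤ pot (rv (insert q (C.erase i))) + (k + 2) * B
      rw [rv_swap]
      exact h2

theorem inv_init (s : AltSys k r) {π : ℕ} {C : Finset (Fin r)} (hC : C.card = k)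
    (hG : GaleP π C) : Inv s π C r :=
  ⟨hC, hG, le_rfl, Lvl.base _ fun _ _ h => h⟩

theorem invL_init (s : AltSys k r) {π : ℕ} (least : Bool) {C : Finset (Fin r)} (hC : C.card = k)
    (hG : GaleP π C) : InvL s π least C r := by
  refine ⟨hC, hG, ?_⟩
  cases least with
  | false => exact inv_init s hC hG
  | true => exact inv_init _ (by rw [card_rv, hC]) (galeP_rv hC hG)

theorem potL_le {least : Bool} {C : Finset (Fin r)} (hC : C.card = k) (hk : k ≤ r) :
    potL least C ≤ ∑ e ∈ range k, e + k * (r - k) := by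
  cases least with
  | false => exact pot_le hC hk
  | true => exact pot_le (by rw [card_rv, hC]) hk

end Run7.h380.DS
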