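import Pool.Agent.Run7.h380.DS.Defs
import Pool.Agent.Run7.h380.DS.Rev

set_option autoImplicit false

/-!
# The dual simplex method with the least or the largest index rule: proof
-/

namespace Run7.h380.DS

open Finset Run7.h380.TP

variable {k n : ℕ}

/-- the alternating system `A x = b` -/
def sysOf {A : Matrix (Fin k) (Fin n) ℝ} (hA : PosMinors A) (b : Fin k → ℝ) : AltSys k n where
  V := LinearMap.ker A.mulVecLin
  S := {x | A.mulVec x = b}
  add_mem := by
    intro u hu w hw
    have h1 : A.mulVec u = b := hu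
    have h2 : A.mulVec w = 0 := hw
    show A.mulVec (u + w) = b
    rw [Matrix.mulVec_add, h1, h2, add_zero]
  sub_mem := by
    intro u hu u' hu'
    have h1 : A.mulVec u = b := hu
    have h2 : A.mulVec u' = b := hu'
    show A.mulVec (u - u') = 0
    rw [Matrix.mulVec_sub, h1, h2, sub_self]
  indep := fun I hI w hw h0 => indep hA hI hw h0
  basic := fun I hI => basic_exists hA hI b
  circ := by
    intro T hT
    obtain ⟨w, h1, h2, h3⟩ := circuit hA T hT
    refine ⟨w, ?_, h1, h2⟩
    show A.mulVec w = 0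
    ext i
    have h4 := h3 (A i)
    have h5 : ((addRow A (A i)).submatrix id (T.orderEmbOfFin hT)).det = 0 := by
      apply Matrix.det_zero_of_row_eq (i := i.castSucc) (j := Fin.last k)
      · exact (Fin.castSucc_lt_last i).ne
      · ext j
        simp only [Matrix.submatrix_apply, id_eq]
        rw [addRow_last, addRow_castSucc]
    rw [h5] at h4
    exact h4

/-- the signs of the reduced costs -/
theorem red {A : Matrix (Fin k) (Fin n) ℝ} (hA : PosMinors A) {c : Fin n → ℝ} {π : ℕ}
    (hc : PosMinors (addRow A ((-1 : ℝ) ^ π • c))) {C : Finset (Fin n)} (hC : C.card = k)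
    {l : Fin n} (hl : l ∉ C) :
    ∃ w, Direction A C l w ∧ 0 < (-1) ^ (above C l + π) * ∑ t, c t * w t := by
  have hT : (insert l C).card = k + 1 := by rw [card_insert_of_notMem hl, hC]
  obtain ⟨w, h1, h2, h3⟩ := circuit hA (insert l C) hT
  have hwl : 0 < (-1) ^ above C l * w l := by
    have := h2 l (mem_insert_self _ _)
    rw [above_insert_self] at this
    exact this
  have hwl0 : w l ≠ 0 := by
    intro h
    rw [h, mul_zero] at hwl
    exact lt_irrefl _ hwl
  have hker : A.mulVec w = 0 := by
    ext i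
    have h4 := h3 (A i)
    have h5 : ((addRow A (A i)).submatrix id ((insert l C).orderEmbOfFin hT)).det = 0 := by
      apply Matrix.det_zero_of_row_eq (i := i.castSucc) (j := Fin.last k)
      · exact (Fin.castSucc_lt_last i).ne
      · ext j
        simp only [Matrix.submatrix_apply, id_eq]
        rw [addRow_last, addRow_castSucc]
    rw [h5] at h4
    exact h4
  refine ⟨fun t => w t / w l, ⟨?_, div_self hwl0, ?_⟩, ?_⟩
  · have : (fun t => w t / w l) = (w l)⁻¹ • w := by
      ext t
      simp only [Pi.smul_apply, smul_eq_mul]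
      field_simp
    rw [this, Matrix.mulVec_smul, hker, smul_zero]
  · intro i hi hil
    have : w i = 0 := h1 i (by simp [hi, hil])
    simp [this]
  · have h5 : ∑ t, c t * (w t / w l) = (∑ t, c t * w t) / w l := by
      rw [sum_div]
      apply sum_congr rfl
      intro t _
      ring
    have h6 : 0 < (-1 : ℝ) ^ π * ∑ t, c t * w t := by
      have h7 : (-1 : ℝ) ^ π * ∑ t, c t * w t = ∑ t, ((-1 : ℝ) ^ π • c) t * w t := by
        rw [mul_sum]
        apply sum_congr rfl
        intro t _
        simp only [Pi.smul_apply, smul_eq_mul]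
        ring
      rw [h7, h3]
      exact hc _ (OrderEmbedding.strictMono _)
    have h8 : (-1 : ℝ) ^ (above C l + π) * ((∑ t, c t * w t) / w l) =
        (((-1) ^ π * ∑ t, c t * w t) * ((-1) ^ above C l * w l)) / (w l * w l) := by
      rw [pow_add]
      field_simp
    rw [h5, h8]
    exact div_pos (mul_pos h6 hwl) (mul_self_pos.2 hwl0)

theorem dual_of_gale {A : Matrix (Fin k) (Fin n) ℝ} (hA : PosMinors A) {c : Fin n → ℝ} {π : ℕ}
    (hc : PosMinors (addRow A ((-1 : ℝ) ^ π • c))) {C : Finset (Fin n)} (hC : C.card = k)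
    (hG : GaleP π C) : DualFeasible A c C := by
  refine ⟨hC, fun w hw h0 => indep hA hC hw h0, ?_⟩
  intro l hl w hw
  obtain ⟨w', hw', h⟩ := red hA hc hC hl
  rw [direction_unique hA hC hw hw']
  rw [(hG l hl).neg_one_pow, one_mul] at h
  exact h.le

theorem gale_of_dual {A : Matrix (Fin k) (Fin n) ℝ} (hA : PosMinors A) {c : Fin n → ℝ} {π : ℕ}
    (hc : PosMinors (addRow A ((-1 : ℝ) ^ π • c))) {C : Finset (Fin n)}
    (hC : DualFeasible A c C) : GaleP π C := by
  intro l hl
  obtain ⟨w, hw, h⟩ := red hA hc hC.1 hl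
  have h1 := hC.2.2 l hl w hw
  rw [← Nat.not_odd_iff_even]
  intro hodd
  rw [hodd.neg_one_pow] at h
  linarith

/-- after a pivot the basis is dual feasible again -/
theorem dual_pivot {A : Matrix (Fin k) (Fin n) ℝ} (hA : PosMinors A) {c : Fin n → ℝ}
    {C : Finset (Fin n)} (hC : DualFeasible A c C) {i q : Fin n} (hi : i ∈ C)
    (hq : Enters A c C i q) : DualFeasible A c (insert q (C.erase i)) := by
  classical
  obtain ⟨hqC, w, hw, hwi, hmin⟩ := hq
  have hcard : (insert q (C.erase i)).card = k := by
    rw [card_insert_of_notMem fun h => hqC (mem_of_mem_erase h), card_erase_of_mem hi, hC.1]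
    have : 0 < C.card := card_pos.2 ⟨i, hi⟩
    have := hC.1
    omega
  have hne : q ≠ i := fun h => hqC (h ▸ hi)
  have hrq : 0 ≤ ∑ t, c t * w t := hC.2.2 q hqC w hw
  refine ⟨hcard, fun w hw h0 => indep hA hcard hw h0, ?_⟩
  intro l hl w2 hw2
  by_cases hli : l = i
  · subst hli
    have h1 : Direction A (insert q (C.erase l)) l ((w l)⁻¹ • w) := by
      refine ⟨?_, ?_, ?_⟩
      · rw [Matrix.mulVec_smul, hw.1, smul_zero]
      · simp only [Pi.smul_apply, smul_eq_mul]
        exact inv_mul_cancel₀ hwi.ne'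
      · intro e he hel
        have : w e = 0 := by
          apply hw.2.2 e
          · intro h
            exact he (mem_insert_of_mem (mem_erase.2 ⟨hel, h⟩))
          · intro h
            exact he (h ▸ mem_insert_self _ _)
        simp [this]
    rw [direction_unique hA hcard hw2 h1]
    have h2 : ∑ t, c t * ((w l)⁻¹ • w) t = (w l)⁻¹ * ∑ t, c t * w t := by
      rw [mul_sum]
      apply sum_congr rfl
      intro t _
      simp only [Pi.smul_apply, smul_eq_mul]
      ring
    rw [h2]
    exact mul_nonneg (inv_nonneg.2 hwi.le) hrq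
  · have hlq : l ≠ q := fun h => hl (h ▸ mem_insert_self _ _)
    have hlC : l ∉ C := fun h => hl (mem_insert_of_mem (mem_erase.2 ⟨hli, h⟩))
    obtain ⟨w1, hw1⟩ : ∃ w1, Direction A C l w1 := by
      obtain ⟨w1, hw1, h1, h2⟩ := (sysOf hA 0).circ (insert l C)
        (by rw [card_insert_of_notMem hlC, hC.1])
      have hw1' : A.mulVec w1 = 0 := hw1
      have h3 : w1 l ≠ 0 := by
        intro h
        have := h2 l (mem_insert_self _ _)
        rw [h, mul_zero] at this
        exact lt_irrefl _ this
      refine ⟨(w1 l)⁻¹ • w1, ?_, ?_, ?_⟩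
      · rw [Matrix.mulVec_smul, hw1', smul_zero]
      · simp only [Pi.smul_apply, smul_eq_mul]
        exact inv_mul_cancel₀ h3
      · intro e he hel
        have : w1 e = 0 := h1 e (by simp [he, hel])
        simp [this]
    have h1 : Direction A (insert q (C.erase i)) l (w1 - (w1 i / w i) • w) := by
      refine ⟨?_, ?_, ?_⟩
      · rw [Matrix.mulVec_sub, Matrix.mulVec_smul, hw1.1, hw.1, smul_zero, sub_zero]
      · simp only [Pi.sub_apply, Pi.smul_apply, smul_eq_mul]
        rw [hw1.2.1, hw.2.2 l hlC hlq, mul_zero, sub_zero]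
      · intro e he hel
        simp only [Pi.sub_apply, Pi.smul_apply, smul_eq_mul]
        by_cases hei : e = i
        · rw [hei, div_mul_cancel₀ _ hwi.ne', sub_self]
        · have heC : e ∉ C := fun h => he (mem_insert_of_mem (mem_erase.2 ⟨hei, h⟩))
          have heq : e ≠ q := fun h => he (h ▸ mem_insert_self _ _)
          rw [hw1.2.2 e heC hel, hw.2.2 e heC heq, mul_zero, sub_zero]
    rw [direction_unique hA hcard hw2 h1]
    have h2 : ∑ t, c t * (w1 - (w1 i / w i) • w) t =
        ∑ t, c t * w1 t - w1 i * ((∑ t, c t * w t) / w i) := by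
      have h3 : w1 i * ((∑ t, c t * w t) / w i) = ∑ t, (w1 i / w i) * (c t * w t) := by
        rw [← mul_sum]
        ring
      rw [h3, ← sum_sub_distrib]
      apply sum_congr rfl
      intro t _
      simp only [Pi.sub_apply, Pi.smul_apply, smul_eq_mul]
      ring
    rw [h2]
    have hr1 : 0 ≤ ∑ t, c t * w1 t := hC.2.2 l hlC w1 hw1
    have hq1 : 0 ≤ (∑ t, c t * w t) / w i := div_nonneg hrq hwi.le
    rcases lt_or_ge 0 (w1 i) with hpos | hneg
    · have h4 := hmin l hlC w1 hw1 hpos
      rw [le_div_iff₀ hpos] at h4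
      linarith
    · have : w1 i * ((∑ t, c t * w t) / w i) ≤ 0 := mul_nonpos_of_nonpos_of_nonneg hneg hq1
      linarith

/-- all directions exist -/
theorem directions {A : Matrix (Fin k) (Fin n) ℝ} (hA : PosMinors A) {c : Fin n → ℝ} {π : ℕ}
    (hc : PosMinors (addRow A ((-1 : ℝ) ^ π • c))) {C : Finset (Fin n)} (hC : C.card = k) :
    ∃ W : Fin n → Fin n → ℝ, ∀ l ∉ C, Direction A C l (W l) := by
  choose! W hW using fun l (hl : l ∉ C) => red hA hc hC hl
  exact ⟨W, fun l hl => (hW l hl).1⟩

theorem sound {A : Matrix (Fin k) (Fin n) ℝ} (hA : PosMinors A) (hk : k ≤ n) {c : Fin n → ℝ}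
    {π : ℕ} (hc : PosMinors (addRow A ((-1 : ℝ) ^ π • c))) {b : Fin k → ℝ} {least : Bool}
    {C : Finset (Fin n)} {N : ℕ} {o : Option (Finset (Fin n))} (hr : Run A b c least C N o) :
    ∀ B, InvL (sysOf hA b) π least C B → Solved A b c o ∧
      potL least C + 2 * N ≤ ∑ e ∈ range k, e + k * (n - k) + (k + 2) * B := by
  induction hr with
  | opt C u hu h0 =>
    intro B hinv
    refine ⟨⟨u, hu, h0, ?_⟩, ?_⟩
    · intro z hz0 hz
      have hdf := dual_of_gale hA hc hinv.1 hinv.2.1
      obtain ⟨W, hW⟩ := directions hA hc hinv.1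
      have h1 := TP.expand hA hinv.1 hu hz W hW
      have h2 : ∑ t, c t * z t = ∑ t, c t * u t + ∑ l ∈ Cᶜ, z l * ∑ t, c t * W l t := by
        have h3 : ∀ t, c t * z t = c t * u t + ∑ l ∈ Cᶜ, z l * (c t * W l t) := by
          intro t
          have h4 : z t = u t + ∑ l ∈ Cᶜ, z l * W l t := by
            conv_lhs => rw [h1]
            simp [Finset.sum_apply]
          conv_lhs => rw [h4]
          rw [mul_add, mul_sum]
          congr 1
          apply sum_congr rfl
          intro l _
          ring
        rw [sum_congr rfl fun t _ => h3 t, sum_add_distrib]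
        congr 1
        rw [sum_comm]
        apply sum_congr rfl
        intro l _
        rw [mul_sum]
      rw [h2]
      have h3 : 0 ≤ ∑ l ∈ Cᶜ, z l * ∑ t, c t * W l t :=
        sum_nonneg fun l hl => mul_nonneg (hz0 l)
          (hdf.2.2 l (mem_compl.1 hl) _ (hW l (mem_compl.1 hl)))
      linarith
    · have := potL_le (least := least) hinv.1 hk
      omega
  | stop C u i hu hi h =>
    intro B hinv
    refine ⟨?_, ?_⟩
    · obtain ⟨W, hW⟩ := directions hA hc hinv.1
      have h1 : ¬ (sysOf hA b).Feasible :=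
        infeas (s := sysOf hA b) hinv.1 (u := u) hu hi.2.1 W (fun l hl => hW l hl)
          fun l hl => h l hl _ (hW l hl)
      rintro ⟨z, hz0, hz⟩
      exact h1 ⟨z, hz, hz0⟩
    · have := potL_le (least := least) hinv.1 hk
      omega
  | pivot C u i q N o hu hi hq hr ih =>
    intro B hinv
    have hdf := dual_of_gale hA hc hinv.1 hinv.2.1
    have hdf' := dual_pivot hA hdf hi.1 hq
    have hG' := gale_of_dual hA hc hdf'
    obtain ⟨B', h1, h2⟩ := stepL hinv (u := u) hu hi.1 hi.2.1 hi.2.2 hq.1 hG'
    obtain ⟨h3, h4⟩ := ih B' h1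
    exact ⟨h3, by omega⟩

/-- the bound for the largest index rule from a basis which contains the first columns -/
theorem sound_first {A : Matrix (Fin k) (Fin n) ℝ} (hA : PosMinors A) (hk : k ≤ n)
    {c : Fin n → ℝ} {π : ℕ} (hc : PosMinors (addRow A ((-1 : ℝ) ^ π • c))) {b : Fin k → ℝ}
    {least : Bool} {C : Finset (Fin n)} {N : ℕ} {o : Option (Finset (Fin n))}
    (hr : Run A b c least C N o) : least = false →
    ∀ B, Inv (sysOf hA b) π C B → (∀ e : Fin n, e.val < B → e ∈ C) →
      pot C + 2 * N ≤ ∑ e ∈ range k, e + k * (n - k) := by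
  induction hr with
  | opt C u hu h0 =>
    intro _ B hinv _
    have := pot_le hinv.1 hk
    omega
  | stop C u i hu hi h =>
    intro _ B hinv _
    have := pot_le hinv.1 hk
    omega
  | pivot C u i q N o hu hi hq hr ih =>
    intro hleast B hinv hpre
    subst hleast
    have hdf := dual_of_gale hA hc hinv.1 hinv.2.1
    have hdf' := dual_pivot hA hdf hi.1 hq
    have hG' := gale_of_dual hA hc hdf'
    obtain ⟨B', h1, -, h2⟩ := step hinv (u := u) hu hi.1 hi.2.1 hi.2.2 hq.1 hG'
    obtain ⟨h3, h4⟩ := h2 hpre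
    have := ih rfl B' h1 h3
    omega

theorem exists_run {A : Matrix (Fin k) (Fin n) ℝ} (hA : PosMinors A) (hk : k ≤ n)
    {c : Fin n → ℝ} {π : ℕ} (hc : PosMinors (addRow A ((-1 : ℝ) ^ π • c))) (b : Fin k → ℝ)
    (least : Bool) : ∀ (M : ℕ) (C : Finset (Fin n)) (B : ℕ),
    InvL (sysOf hA b) π least C B →
    ∑ e ∈ range k, e + k * (n - k) + (k + 2) * B ≤ M + potL least C →
    ∃ N o, Run A b c least C N o := by
  classical
  intro M
  induction M using Nat.strong_induction_on with
  | _ M ih =>
    intro C B hinv hM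
    obtain ⟨u, hu⟩ := basic_exists hA hinv.1 b
    by_cases h0 : ∀ t, 0 ≤ u t
    · exact ⟨0, some C, Run.opt C u hu h0⟩
    · obtain ⟨L, hL⟩ : ∃ L, L = C.filter (fun e => u e < 0) := ⟨_, rfl⟩
      have hmemL : ∀ e, e ∈ L ↔ e ∈ C ∧ u e < 0 := fun e => by rw [hL, mem_filter]
      clear hL
      have hne : L.Nonempty := by
        push Not at h0
        obtain ⟨t, ht⟩ := h0
        have htC : t ∈ C := by
          by_contra h
          rw [hu.2 t h] at ht
          exact lt_irrefl _ ht
        exact ⟨t, (hmemL t).2 ⟨htC, ht⟩⟩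
      have hleave : ∃ i, Leaves least C u i := by
        cases least with
        | false =>
          refine ⟨L.max' hne, ((hmemL _).1 (L.max'_mem hne)).1, ((hmemL _).1 (L.max'_mem hne)).2, ?_⟩
          · intro e he hlt
            by_contra hcon
            push Not at hcon
            have h1 : e ≤ L.max' hne := L.le_max' e ((hmemL e).2 ⟨he, hcon⟩)
            simp only [Bool.false_eq_true, if_false] at hlt
            exact absurd h1 (not_le.2 hlt)
        | true =>
          refine ⟨L.min' hne, ((hmemL _).1 (L.min'_mem hne)).1, ((hmemL _).1 (L.min'_mem hne)).2, ?_⟩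
          · intro e he hlt
            by_contra hcon
            push Not at hcon
            have h1 : L.min' hne ≤ e := L.min'_le e ((hmemL e).2 ⟨he, hcon⟩)
            simp only [if_true] at hlt
            exact absurd h1 (not_le.2 hlt)
      obtain ⟨i, hi⟩ := hleave
      obtain ⟨W, hW⟩ := directions hA hc hinv.1
      obtain ⟨Q, hQ⟩ : ∃ Q, Q = Cᶜ.filter (fun l => 0 < W l i) := ⟨_, rfl⟩
      by_cases hQne : Q.Nonempty
      · obtain ⟨q, hqQ, hqmin⟩ := exists_min_image Q
          (fun l => (∑ t, c t * W l t) / W l i) hQne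
        rw [hQ, mem_filter, mem_compl] at hqQ
        have hq : Enters A c C i q := by
          refine ⟨hqQ.1, W q, hW q hqQ.1, hqQ.2, ?_⟩
          intro l hl w' hw' hpos
          have h1 : w' = W l := direction_unique hA hinv.1 hw' (hW l hl)
          rw [h1] at hpos ⊢
          exact hqmin l (by rw [hQ, mem_filter, mem_compl]; exact ⟨hl, hpos⟩)
        have hdf := dual_of_gale hA hc hinv.1 hinv.2.1
        have hdf' := dual_pivot hA hdf hi.1 hq
        have hG' := gale_of_dual hA hc hdf'
        obtain ⟨B', h1, h2⟩ := stepL hinv (u := u) hu hi.1 hi.2.1 hi.2.2 hq.1 hG'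
        have h3 := potL_le (least := least) h1.1 hk
        have h4 := potL_le (least := least) hinv.1 hk
        obtain ⟨N, o, hr⟩ := ih (M - 2) (by omega) _ B' h1 (by omega)
        exact ⟨N + 1, o, Run.pivot C u i q N o hu hi hq hr⟩
      · refine ⟨0, none, Run.stop C u i hu hi ?_⟩
        intro l hl w hw
        by_contra hcon
        push Not at hcon
        apply hQne
        refine ⟨l, ?_⟩
        rw [hQ, mem_filter, mem_compl]
        refine ⟨hl, ?_⟩
        rw [← direction_unique hA hinv.1 hw (hW l hl)]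
        exact hcon

/-- the theorem -/
theorem main (k n : ℕ) (A : Matrix (Fin k) (Fin n) ℝ) (hA : PosMinors A) (hk : k ≤ n)
    (c : Fin n → ℝ) (hc : PosMinors (addRow A c) ∨ PosMinors (addRow A (-c)))
    (b : Fin k → ℝ) (least : Bool) (C : Finset (Fin n)) (hC : DualFeasible A c C) :
    (∃ N o, Run A b c least C N o) ∧
    ∀ N o, Run A b c least C N o → Solved A b c o ∧ N ≤ (k + 1) * n ∧
      (least = false → PosMinors (addRow A c) → C = first k n → 2 * N ≤ k * (n - k)) := by
  obtain ⟨π, hπ⟩ : ∃ π : ℕ, PosMinors (addRow A ((-1 : ℝ) ^ π • c)) := by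
    rcases hc with hc | hc
    · exact ⟨0, by simpa using hc⟩
    · refine ⟨1, ?_⟩
      have : (-1 : ℝ) ^ 1 • c = -c := by
        ext t
        simp
      rw [this]
      exact hc
  have hG := gale_of_dual hA hπ hC
  have hinv := invL_init (sysOf hA b) least hC.1 hG
  refine ⟨exists_run hA hk hπ b least _ C n hinv (Nat.le_add_right _ _), ?_⟩
  intro N o hr
  obtain ⟨h1, h2⟩ := sound hA hk hπ hr n hinv
  refine ⟨h1, ?_, ?_⟩
  · have h3 : ∑ e ∈ range k, e ≤ k * k := by
      have h4 : ∑ e ∈ range k, e ≤ ∑ _e ∈ range k, k := sum_le_sum fun e he =>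
        (mem_range.1 he).le
      rw [sum_const, card_range, smul_eq_mul] at h4
      exact h4
    have h4 : k * (n - k) + k * k = k * n := by
      rw [← Nat.mul_add]
      congr 1
      omega
    have h5 : (k + 1) * n * 2 = k * n + (k + 2) * n := by ring
    omega
  · intro hleast hc' hCf
    have hG0 : GaleP 0 C := gale_of_dual hA (by simpa using hc') hC
    have hI : Inv (sysOf hA b) 0 C k := by
      refine ⟨hC.1, hG0, hk, Lvl.base _ ?_⟩
      intro e he _
      rw [hCf] at he
      unfold first at he
      rw [mem_filter] at he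
      exact he.2
    have h3 := sound_first hA hk (π := 0) (by simpa using hc') hr hleast k hI (by
      intro e he
      rw [hCf]
      unfold first
      exact mem_filter.2 ⟨mem_univ _, he⟩)
    rw [hCf, pot_first hk] at h3
    omega

end Run7.h380.DS
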