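import Pool.Agent.Run7.h380.DS.Core

set_option autoImplicit false

/-!
# One pivot of the largest index rule
-/

namespace Run7.h380.DS

open Finset Run7.h380.TP

variable {k r : ℕ}

theorem swap_up {π : ℕ} {C : Finset (Fin r)} (hG : GaleP π C) {i q : Fin r} (hi : i ∈ C)
    (hq : q ∉ C) (hG' : GaleP π (insert q (C.erase i))) (hodd : Odd (above C i + π)) :
    i.val + 2 ≤ q.val := by
  have hqe : q ∉ C.erase i := fun h => hq (mem_of_mem_erase h)
  have hne : q ≠ i := fun h => hq (h ▸ hi)
  have hi' : i ∉ insert q (C.erase i) := by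
    intro h
    rcases mem_insert.1 h with h | h
    · exact hne h.symm
    · exact absurd h (notMem_erase _ _)
  have hlt : i < q := by
    rcases lt_trichotomy i q with h | h | h
    · exact h
    · exact absurd h.symm hne
    · have h1 := hG' i hi'
      rw [above_insert_of_gt h, above_erase_of_le le_rfl] at h1
      exact absurd h1 (Nat.not_even_iff_odd.2 hodd)
  by_contra hcon
  have hv : i.val < q.val := hlt
  have h4 : q.val = i.val + 1 := by omega
  have h5 : above C q = above C i := by
    unfold above
    congr 1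
    ext e
    simp only [mem_filter]
    constructor
    · rintro ⟨a, c⟩
      exact ⟨a, hlt.trans c⟩
    · rintro ⟨a, c⟩
      refine ⟨a, ?_⟩
      have c' : i.val < e.val := c
      have : e ≠ q := fun h => hq (h ▸ a)
      have : e.val ≠ q.val := fun h => this (Fin.ext h)
      exact Fin.lt_def.2 (by omega)
  have h6 := hG q hq
  rw [h5] at h6
  exact (Nat.not_even_iff_odd.2 hodd) h6

theorem swap_up_mem {π : ℕ} {C : Finset (Fin r)} (hG : GaleP π C) {i q : Fin r} (hi : i ∈ C)
    (hq : q ∉ C) (hG' : GaleP π (insert q (C.erase i))) {l : Fin r} (h1 : i < l) (h2 : l < q) :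
    l ∈ C := by
  by_contra hl
  have hl' : l ∉ insert q (C.erase i) := by
    intro h
    rcases mem_insert.1 h with h | h
    · exact absurd h h2.ne
    · exact hl (mem_of_mem_erase h)
  have hqe : q ∉ C.erase i := fun h => hq (mem_of_mem_erase h)
  have h3 := hG' l hl'
  rw [above_insert_of_lt hqe h2, above_erase_of_le h1.le] at h3
  have h4 := hG l hl
  rw [Nat.even_iff] at h3 h4
  omega

theorem swap_down {π : ℕ} {C : Finset (Fin r)} {i q : Fin r} (hi : i ∈ C)
    (hq : q ∉ C) (hG' : GaleP π (insert q (C.erase i))) (heven : Even (above C i + π)) :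
    q < i := by
  have hqe : q ∉ C.erase i := fun h => hq (mem_of_mem_erase h)
  have hne : q ≠ i := fun h => hq (h ▸ hi)
  have hi' : i ∉ insert q (C.erase i) := by
    intro h
    rcases mem_insert.1 h with h | h
    · exact hne h.symm
    · exact absurd h (notMem_erase _ _)
  rcases lt_trichotomy i q with h | h | h
  · have h1 := hG' i hi'
    rw [above_insert_of_lt hqe h, above_erase_of_le le_rfl] at h1
    rw [Nat.even_iff] at h1 heven
    omega
  · exact absurd h.symm hne
  · exact h

theorem swap_down_mem {π : ℕ} {C : Finset (Fin r)} (hG : GaleP π C) {i q : Fin r} (hi : i ∈ C)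
    (hG' : GaleP π (insert q (C.erase i))) {l : Fin r} (h1 : q < l)
    (h2 : l < i) : l ∈ C := by
  by_contra hl
  have hl' : l ∉ insert q (C.erase i) := by
    intro h
    rcases mem_insert.1 h with h | h
    · exact absurd h h1.ne'
    · exact hl (mem_of_mem_erase h)
  have h3 := hG' l hl'
  rw [above_insert_of_gt h1] at h3
  have h5 := above_erase_of_gt hi h2
  have h4 := hG l hl
  rw [Nat.even_iff] at h3 h4
  omega

theorem pot_swap {C : Finset (Fin r)} {i q : Fin r} (hi : i ∈ C) (hq : q ∉ C) :
    pot (insert q (C.erase i)) + i.val = pot C + q.val := by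
  have hqe : q ∉ C.erase i := fun h => hq (mem_of_mem_erase h)
  unfold pot
  rw [sum_insert hqe]
  have h7 : ∑ e ∈ C, e.val = i.val + ∑ e ∈ C.erase i, e.val := (add_sum_erase C _ hi).symm
  rw [h7]
  omega

/-- a run of consecutive elements of `C` -/
theorem run_le {C : Finset (Fin r)} (hC : C.card = k) {q i : Fin r} (hqi : q < i)
    (h : ∀ l, q < l → l ≤ i → l ∈ C) : i.val ≤ q.val + k := by
  have h1 : Finset.Ioc q i ⊆ C := fun l hl => h l (mem_Ioc.1 hl).1 (mem_Ioc.1 hl).2
  have h2 := card_le_card h1
  rw [Fin.card_Ioc, hC] at h2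
  omega

/-- The invariant. -/
def Inv (s : AltSys k r) (π : ℕ) (C : Finset (Fin r)) (B : ℕ) : Prop :=
  C.card = k ∧ GaleP π C ∧ B ≤ r ∧ Lvl s C B r

theorem step {s : AltSys k r} {π : ℕ} {C : Finset (Fin r)} {B : ℕ} (hinv : Inv s π C B)
    {u : Fin r → ℝ} (hu : s.Bas C u) {i : Fin r} (hi : i ∈ C) (hneg : u i < 0)
    (hmax : ∀ e ∈ C, i < e → 0 ≤ u e) {q : Fin r} (hq : q ∉ C)
    (hG' : GaleP π (insert q (C.erase i))) :
    ∃ B', Inv s π (insert q (C.erase i)) B' ∧
      pot C + (k + 2) * B' + 2 ≤ pot (insert q (C.erase i)) + (k + 2) * B ∧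
      ((∀ e : Fin r, e.val < B → e ∈ C) →
        (∀ e : Fin r, e.val < B' → e ∈ insert q (C.erase i)) ∧
        pot C + 2 ≤ pot (insert q (C.erase i))) := by
  obtain ⟨hC, hG, hB, hL⟩ := hinv
  have hqe : q ∉ C.erase i := fun h => hq (mem_of_mem_erase h)
  have hne : q ≠ i := fun h => hq (h ▸ hi)
  have hcard : (insert q (C.erase i)).card = k := by
    rw [card_insert_of_notMem hqe, card_erase_of_mem hi, hC]
    have : 0 < C.card := card_pos.2 ⟨i, hi⟩
    omega
  have hi' : i ∉ insert q (C.erase i) := by
    intro h
    rcases mem_insert.1 h with h | h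
    · exact hne h.symm
    · exact absurd h (notMem_erase _ _)
  have hpos : ∀ e, i < e → 0 ≤ u e := by
    intro e he
    by_cases h : e ∈ C
    · exact hmax e h he
    · rw [hu.2 e h]
  have hsupp : ∀ e : Fin r, e.val < r → e ∉ insert q (C.erase i) → e ≠ i → u e = 0 := by
    intro e _ he hei
    exact hu.2 e fun h => he (mem_insert_of_mem (mem_erase.2 ⟨hei, h⟩))
  have hp := pot_swap hi hq
  have hup : Odd (above C i + π) → i.val + 2 ≤ q.val := fun h => swap_up hG hi hq hG' h
  rcases Nat.lt_or_ge i.val B with hiB | hiB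
  · refine ⟨i.val, ⟨hcard, hG', by omega, ?_⟩, ?_, ?_⟩
    · exact Lvl.step r i le_rfl i.isLt hi' u hu.1 hneg.le hpos hsupp
        (Lvl.base _ fun e _ h => h)
    · have h1 : (k + 2) * i.val + (k + 2) ≤ (k + 2) * B := by
        calc (k + 2) * i.val + (k + 2) = (k + 2) * (i.val + 1) := by ring
          _ ≤ (k + 2) * B := Nat.mul_le_mul_left _ hiB
      rcases Nat.even_or_odd (above C i + π) with heven | hodd
      · have h2 := swap_down hi hq hG' heven
        have h3 : i.val ≤ q.val + k := run_le hC h2 fun l h4 h5 => by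
          rcases lt_or_eq_of_le h5 with h6 | h6
          · exact swap_down_mem hG hi hG' h4 h6
          · exact h6 ▸ hi
        have h2' : q.val < i.val := h2
        omega
      · have := hup hodd
        omega
    · intro hpre
      refine ⟨?_, ?_⟩
      · intro e he
        refine mem_insert_of_mem (mem_erase.2 ⟨?_, hpre e (by omega)⟩)
        intro h
        rw [h] at he
        exact lt_irrefl _ he
      · rcases Nat.even_or_odd (above C i + π) with heven | hodd
        · have h2 := swap_down hi hq hG' heven
          have h2' : q.val < i.val := h2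
          exact absurd (hpre q (by omega)) hq
        · have := hup hodd
          omega
  · have hodd : Odd (above C i + π) := by
      rw [← Nat.not_even_iff_odd]
      intro heven
      have := hL.key hC hG hu hi i.isLt hiB heven
      linarith
    have h1 := hup hodd
    refine ⟨B, ⟨hcard, hG', hB, ?_⟩, ?_, ?_⟩
    · refine Lvl.step r i hiB i.isLt hi' u hu.1 hneg.le hpos hsupp ?_
      refine (hL.restrict hi i.isLt.le).congr ?_
      intro e he
      constructor
      · intro h
        refine mem_insert_of_mem (mem_erase.2 ⟨?_, h⟩)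
        intro h'
        rw [h'] at he
        exact lt_irrefl _ he
      · intro h
        rcases mem_insert.1 h with h | h
        · rw [h] at he
          omega
        · exact mem_of_mem_erase h
    · omega
    · intro hpre
      refine ⟨?_, by omega⟩
      intro e he
      refine mem_insert_of_mem (mem_erase.2 ⟨?_, hpre e he⟩)
      intro h
      rw [h] at he
      omega

end Run7.h380.DS
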